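import Pool.Agent.H233Z.Tower
import Pool.Agent.H59Z.NA.Tacyl
import Pool.Agent.H59Z.NA.Tacylq
import Pool.Agent.H59Z.NA.Taxis
import Pool.Agent.H59Z.NA.Tbase
import Pool.Agent.H59Z.NA.Tbow
import Pool.Agent.H59Z.NA.Tcomm
import Pool.Agent.H59Z.NA.Tcyc
import Pool.Agent.H59Z.NA.Telec
import Pool.Agent.H59Z.NA.Tell
import Pool.Agent.H59Z.NA.Tfp
import Pool.Agent.H59Z.NA.Thyp
import Pool.Agent.H59Z.NA.Tlfp
import Pool.Agent.H59Z.NA.Tlines
import Pool.Agent.H59Z.NA.Tlox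
import Pool.Agent.H59Z.NA.Tloxq
import Pool.Agent.H59Z.NA.Tmd
import Pool.Agent.H59Z.NA.Tpos
import Pool.Agent.H59Z.NA.Tquo
import Pool.Agent.H59Z.NA.Tstep
import Pool.Agent.H59Z.NA.Ttau
import Pool.Agent.H59Z.NA.Ttri
import Pool.Agent.H59Z.NA.Twind

set_option autoImplicit false

/-!
# The unconditional tower theorem
-/

namespace Pool.Agent.H233Z.Tower

open Pool.Agent.H59Z.NA

theorem s_lox : S_lox := thm_lox thm_tau (thm_cyc thm_tau)

theorem s_acyl : S_acyl := thm_acyl thm_comm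

theorem s_base : S_base := thm_base thm_tau thm_comm s_lox

theorem s_lines : S_lines := thm_lines thm_tau thm_hyp s_acyl (thm_axis thm_tau)

theorem s_elec : S_elec := thm_elec thm_hyp thm_bow

theorem s_quo : S_quo := thm_quo thm_hyp

theorem s_md : S_md := thm_md thm_hyp thm_pos

theorem s_step : S_step :=
  thm_step thm_tau s_acyl s_lox thm_pos (thm_ell thm_pos (thm_fp thm_pos) thm_lfp)
    (thm_tri thm_tau thm_pos (thm_fp thm_pos) thm_lfp s_md) (thm_acylq thm_pos s_md)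
    (thm_loxq thm_tau thm_pos s_md)

/-- Extensions of free Burnside groups of large odd exponent with prescribed lifts of the
relators. -/
theorem tower_all {Γ : Type} [Group Γ] (n : ℕ) (hn : Odd n) (hb : 10 ^ 32 ≤ n) (ρ₀ : Γ →* Fr)
    (hρ : Function.Surjective ρ₀) (h : Γ → Γ)
    (h1 : ∀ g, ρ₀ (h g) = ρ₀ g ^ n) (h2 : ∀ g, Commute (h g) g)
    (h3 : ∀ g e, ρ₀ e = 1 → Commute (h g) e) :
    ∃ K : Subgroup Γ, K.Normal ∧ (∀ k ∈ K, ρ₀ k = 1 → k = 1) ∧ (∀ k ∈ K, ρ₀ k ∈ NF n) ∧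
      ∀ γ : Γ, ∃ k ∈ K, ∃ e : Γ, ρ₀ e = 1 ∧
        (γ = e * k ∨ ∃ (x t : Γ) (j : ℤ), h x ∈ K ∧ γ = t * x ^ j * t⁻¹ * e * k) :=
  tower thm_tau s_base s_lines s_elec thm_wind s_quo s_step n hn hb ρ₀ hρ h h1 h2 h3

end Pool.Agent.H233Z.Tower
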