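import Mathlib

namespace Pool.Agent.H233Z

/-- A space is zero-dimensional if it has a base of sets that are both open and closed. -/
def ZeroDim (X : Type) [TopologicalSpace X] : Prop :=
  ∃ B : Set (Set X), TopologicalSpace.IsTopologicalBasis B ∧ ∀ s ∈ B, IsClopen s

/-- Property `Z_m` of a topological group `G`: every closed zero-dimensional metrizable subgroup
of `G` (with the subspace topology) is discrete. -/
def Zm (G : Type) [Group G] [TopologicalSpace G] : Prop :=
  ∀ H : Subgroup G, IsClosed (H : Set G) → ZeroDim H → TopologicalSpace.MetrizableSpace H →
    DiscreteTopology H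

end Pool.Agent.H233Z
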