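import Mathlib
import Pool.Agent.H233Z.ZmDefs

open scoped Manifold ContDiff
open Set Topology

namespace Pool.Agent.H233Z

noncomputable section

/-- The real Heisenberg group, as Euclidean three-space with the polarised group law. -/
def Heis : Type := EuclideanSpace ℝ (Fin 3)

namespace Heis

instance : TopologicalSpace Heis := inferInstanceAs (TopologicalSpace (EuclideanSpace ℝ (Fin 3)))
instance : T2Space Heis := inferInstanceAs (T2Space (EuclideanSpace ℝ (Fin 3)))
instance : SecondCountableTopology Heis :=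
  inferInstanceAs (SecondCountableTopology (EuclideanSpace ℝ (Fin 3)))
instance : ConnectedSpace Heis := inferInstanceAs (ConnectedSpace (EuclideanSpace ℝ (Fin 3)))
instance : ChartedSpace (EuclideanSpace ℝ (Fin 3)) Heis :=
  inferInstanceAs (ChartedSpace (EuclideanSpace ℝ (Fin 3)) (EuclideanSpace ℝ (Fin 3)))

def mk (x y z : ℝ) : Heis := (!₂[x, y, z] : EuclideanSpace ℝ (Fin 3))
def x (a : Heis) : ℝ := (show EuclideanSpace ℝ (Fin 3) from a) 0
def y (a : Heis) : ℝ := (show EuclideanSpace ℝ (Fin 3) from a) 1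
def z (a : Heis) : ℝ := (show EuclideanSpace ℝ (Fin 3) from a) 2

@[simp] lemma x_mk (a b c : ℝ) : (mk a b c).x = a := rfl
@[simp] lemma y_mk (a b c : ℝ) : (mk a b c).y = b := rfl
@[simp] lemma z_mk (a b c : ℝ) : (mk a b c).z = c := rfl

lemma ext' {a b : Heis} (h1 : a.x = b.x) (h2 : a.y = b.y) (h3 : a.z = b.z) : a = b := by
  apply PiLp.ext
  intro i
  fin_cases i
  · exact h1
  · exact h2
  · exact h3

instance : Mul Heis := ⟨fun a b => mk (a.x + b.x) (a.y + b.y) (a.z + b.z + a.x * b.y)⟩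
instance : One Heis := ⟨mk 0 0 0⟩
instance : Inv Heis := ⟨fun a => mk (-a.x) (-a.y) (-a.z + a.x * a.y)⟩

@[simp] lemma mul_x (a b : Heis) : (a * b).x = a.x + b.x := rfl
@[simp] lemma mul_y (a b : Heis) : (a * b).y = a.y + b.y := rfl
@[simp] lemma mul_z (a b : Heis) : (a * b).z = a.z + b.z + a.x * b.y := rfl
@[simp] lemma one_x : (1 : Heis).x = 0 := rfl
@[simp] lemma one_y : (1 : Heis).y = 0 := rfl
@[simp] lemma one_z : (1 : Heis).z = 0 := rfl
@[simp] lemma inv_x (a : Heis) : (a⁻¹).x = -a.x := rfl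
@[simp] lemma inv_y (a : Heis) : (a⁻¹).y = -a.y := rfl
@[simp] lemma inv_z (a : Heis) : (a⁻¹).z = -a.z + a.x * a.y := rfl

instance : Group Heis := Group.ofLeftAxioms
  (fun a b c => ext' (by simp [add_assoc]) (by simp [add_assoc]) (by simp; ring))
  (fun a => ext' (by simp) (by simp) (by simp))
  (fun a => ext' (by simp) (by simp) (by simp))

lemma contDiff_mk {E : Type} [NormedAddCommGroup E] [NormedSpace ℝ E] {f g h : E → ℝ}
    (hf : ContDiff ℝ ω f) (hg : ContDiff ℝ ω g) (hh : ContDiff ℝ ω h) :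
    ContDiff ℝ ω (fun e => (!₂[f e, g e, h e] : EuclideanSpace ℝ (Fin 3))) := by
  rw [contDiff_euclidean]
  intro i
  fin_cases i
  · exact hf
  · exact hg
  · exact hh

instance : LieGroup (𝓡 3) ω Heis where
  toIsManifold := inferInstanceAs (IsManifold (𝓡 3) ω (EuclideanSpace ℝ (Fin 3)))
  contMDiff_mul := by
    have h : ContDiff ℝ ω (fun p : EuclideanSpace ℝ (Fin 3) × EuclideanSpace ℝ (Fin 3) =>
        (!₂[p.1 0 + p.2 0, p.1 1 + p.2 1, p.1 2 + p.2 2 + p.1 0 * p.2 1] :
          EuclideanSpace ℝ (Fin 3))) := by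
      apply contDiff_mk <;> fun_prop
    have h2 := h.contMDiff
    rw [modelWithCornersSelf_prod, ← chartedSpaceSelf_prod] at h2
    exact h2
  contMDiff_inv := by
    have h : ContDiff ℝ ω (fun p : EuclideanSpace ℝ (Fin 3) =>
        (!₂[-p 0, -p 1, -p 2 + p 0 * p 1] : EuclideanSpace ℝ (Fin 3))) := by
      apply contDiff_mk <;> fun_prop
    exact h.contMDiff

instance : IsTopologicalGroup Heis := topologicalGroup_of_lieGroup (𝓡 3) ω

lemma continuous_x : Continuous (x : Heis → ℝ) := by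
  change Continuous (fun a : EuclideanSpace ℝ (Fin 3) => a 0); fun_prop
lemma continuous_y : Continuous (y : Heis → ℝ) := by
  change Continuous (fun a : EuclideanSpace ℝ (Fin 3) => a 1); fun_prop
lemma continuous_z : Continuous (z : Heis → ℝ) := by
  change Continuous (fun a : EuclideanSpace ℝ (Fin 3) => a 2); fun_prop

lemma continuous_mk {E : Type} [TopologicalSpace E] {f g h : E → ℝ}
    (hf : Continuous f) (hg : Continuous g) (hh : Continuous h) :
    Continuous (fun e => mk (f e) (g e) (h e)) := by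
  change Continuous (fun e => (!₂[f e, g e, h e] : EuclideanSpace ℝ (Fin 3)))
  refine (PiLp.continuous_toLp 2 _).comp ?_
  refine continuous_pi fun i => ?_
  fin_cases i
  · exact hf
  · exact hg
  · exact hh

end Heis

open Heis

/-- The subgroup of all elements whose first two coordinates lie in the group generated by
`(1, 0)`, `(0, 1)` and `(t, t ^ 2)`. -/
def GG (t : ℝ) : Subgroup Heis where
  carrier := {g | ∃ a b c : ℤ, g.x = a + c * t ∧ g.y = b + c * t ^ 2}
  mul_mem' := by
    rintro g h ⟨a, b, c, h1, h2⟩ ⟨a', b', c', h3, h4⟩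
    refine ⟨a + a', b + b', c + c', ?_, ?_⟩
    · simp [h1, h3]; ring
    · simp [h2, h4]; ring
  one_mem' := ⟨0, 0, 0, by simp, by simp⟩
  inv_mem' := by
    rintro g ⟨a, b, c, h1, h2⟩
    refine ⟨-a, -b, -c, ?_, ?_⟩
    · simp [h1]; ring
    · simp [h2]; ring

lemma exists_indep : ∃ t : ℝ, ∀ a b c : ℤ, (a : ℝ) + b * t + c * t ^ 2 = 0 →
    a = 0 ∧ b = 0 ∧ c = 0 := by
  refine ⟨liouvilleNumber 2, fun a b c h => ?_⟩
  have ht : Transcendental ℤ (liouvilleNumber (2 : ℕ)) := transcendental_liouvilleNumber le_rfl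
  have h0 : (Polynomial.C a + Polynomial.C b * Polynomial.X + Polynomial.C c * Polynomial.X ^ 2 :
      Polynomial ℤ) = 0 := by
    by_contra hne
    apply ht
    refine ⟨_, hne, ?_⟩
    simpa using h
  have e0 := congrArg (fun p => Polynomial.coeff p 0) h0
  have e1 := congrArg (fun p => Polynomial.coeff p 1) h0
  have e2 := congrArg (fun p => Polynomial.coeff p 2) h0
  simp only [Polynomial.coeff_add, Polynomial.coeff_C_mul, Polynomial.coeff_X, Polynomial.coeff_C,
    Polynomial.coeff_X_pow, Polynomial.coeff_zero] at e0 e1 e2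
  exact ⟨by simpa using e0, by simpa using e1, by simpa using e2⟩

/-- the central one-parameter subgroup inside `GG t` -/
def cen (t : ℝ) (s : ℝ) : GG t := ⟨mk 0 0 s, 0, 0, 0, by simp, by simp⟩

lemma continuous_cen (t : ℝ) : Continuous (cen t) :=
  Continuous.subtype_mk (continuous_mk continuous_const continuous_const continuous_id) _

/-- the central part of a subgroup -/
def cpart (t : ℝ) (N : Subgroup (GG t)) : AddSubgroup ℝ where
  carrier := {s | cen t s ∈ N}
  add_mem' := by
    intro a b ha hb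
    have : cen t (a + b) = cen t a * cen t b :=
      Subtype.ext (ext' (by simp [cen]) (by simp [cen]) (by simp [cen]))
    show cen t (a + b) ∈ N
    rw [this]; exact N.mul_mem ha hb
  zero_mem' := by
    have : cen t 0 = 1 := Subtype.ext (ext' (by simp [cen]) (by simp [cen]) (by simp [cen]))
    show cen t 0 ∈ N
    rw [this]; exact N.one_mem
  neg_mem' := by
    intro a ha
    have : cen t (-a) = (cen t a)⁻¹ :=
      Subtype.ext (ext' (by simp [cen]) (by simp [cen]) (by simp [cen]))
    show cen t (-a) ∈ N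
    rw [this]; exact N.inv_mem ha

lemma comm_mem (t : ℝ) (N : Subgroup (GG t)) {g h : GG t} (hg : g ∈ N) (hh : h ∈ N) :
    g.1.x * h.1.y - h.1.x * g.1.y ∈ cpart t N := by
  have : cen t (g.1.x * h.1.y - h.1.x * g.1.y) = g * h * g⁻¹ * h⁻¹ :=
    Subtype.ext (ext' (by simp [cen]) (by simp [cen]) (by simp [cen]; ring))
  show cen t _ ∈ N
  rw [this]
  exact N.mul_mem (N.mul_mem (N.mul_mem hg hh) (N.inv_mem hg)) (N.inv_mem hh)

lemma small_plane (t : ℝ) (ht : ∀ a b c : ℤ, (a : ℝ) + b * t + c * t ^ 2 = 0 →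
    a = 0 ∧ b = 0 ∧ c = 0) (N : Subgroup (GG t)) (δ : ℝ) (hδ : 0 < δ)
    (hc : ∀ s ∈ cpart t N, |s| < δ → s = 0) :
    ∃ ε > 0, ∀ g ∈ N, |g.1.x| < ε → |g.1.y| < ε → g.1.x = 0 ∧ g.1.y = 0 := by
  by_cases h1 : ∃ g1 ∈ N, ∃ g2 ∈ N, g1.1.x * g2.1.y - g2.1.x * g1.1.y ≠ 0
  · obtain ⟨g1, hg1, g2, hg2, hne⟩ := h1
    set M := 1 + |g1.1.x| + |g1.1.y| + |g2.1.x| + |g2.1.y| with hM
    have hMpos : 0 < M := by positivity
    refine ⟨δ / M, by positivity, fun g hg hx hy => ?_⟩
    have key : ∀ h ∈ N, |h.1.x| + |h.1.y| < M → g.1.x * h.1.y - h.1.x * g.1.y = 0 := by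
      intro h hh hlt
      apply hc _ (comm_mem t N hg hh)
      have e1 : |g.1.x * h.1.y - h.1.x * g.1.y| ≤ |g.1.x| * |h.1.y| + |h.1.x| * |g.1.y| := by
        rw [← abs_mul, ← abs_mul]; exact abs_sub _ _
      have e2 : |g.1.x| * |h.1.y| ≤ δ / M * |h.1.y| :=
        mul_le_mul_of_nonneg_right hx.le (abs_nonneg _)
      have e3 : |h.1.x| * |g.1.y| ≤ |h.1.x| * (δ / M) :=
        mul_le_mul_of_nonneg_left hy.le (abs_nonneg _)
      have e4 : δ / M * (|h.1.x| + |h.1.y|) < δ / M * M :=
        mul_lt_mul_of_pos_left hlt (by positivity)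
      have e5 : δ / M * M = δ := by field_simp
      nlinarith
    have k1 := key g1 hg1 (by have := abs_nonneg g2.1.x; have := abs_nonneg g2.1.y; linarith)
    have k2 := key g2 hg2 (by have := abs_nonneg g1.1.x; have := abs_nonneg g1.1.y; linarith)
    constructor
    · apply mul_right_cancel₀ hne
      linear_combination g1.1.x * k2 - g2.1.x * k1
    · apply mul_right_cancel₀ hne
      linear_combination g1.1.y * k2 - g2.1.y * k1
  · push Not at h1
    by_cases h2 : ∃ g1 ∈ N, 0 < |g1.1.x| + |g1.1.y|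
    · obtain ⟨g1, hg1, hpos⟩ := h2
      obtain ⟨a1, b1, c1, hx1, hy1⟩ := g1.2
      set m : ℤ := a1 ^ 2 + b1 ^ 2 + c1 ^ 2 with hm
      have hmpos : 0 < m := by
        by_contra hle
        have ha : a1 = 0 := by nlinarith [sq_nonneg a1, sq_nonneg b1, sq_nonneg c1]
        have hb : b1 = 0 := by nlinarith [sq_nonneg a1, sq_nonneg b1, sq_nonneg c1]
        have hcc : c1 = 0 := by nlinarith [sq_nonneg a1, sq_nonneg b1, sq_nonneg c1]
        rw [hx1, hy1, ha, hb, hcc] at hpos
        simp at hpos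
      have hmR : (0 : ℝ) < m := by exact_mod_cast hmpos
      refine ⟨(|g1.1.x| + |g1.1.y|) / (2 * m), by positivity, fun g hg hx hy => ?_⟩
      obtain ⟨a, b, c, hx0, hy0⟩ := g.2
      have hω := h1 g hg g1 hg1
      rw [hx0, hy0, hx1, hy1] at hω
      obtain ⟨e1, e2, e3⟩ := ht (a * b1 - a1 * b) (c * b1 - c1 * b) (a * c1 - a1 * c) (by
        push_cast; linear_combination hω)
      set k : ℤ := a * a1 + b * b1 + c * c1 with hk
      have fa : m * a = k * a1 := by rw [hm, hk]; linear_combination b1 * e1 + c1 * e3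
      have fb : m * b = k * b1 := by rw [hm, hk]; linear_combination (-a1) * e1 + (-c1) * e2
      have fc : m * c = k * c1 := by rw [hm, hk]; linear_combination b1 * e2 - a1 * e3
      have fa' : (m : ℝ) * a = k * a1 := by exact_mod_cast fa
      have fb' : (m : ℝ) * b = k * b1 := by exact_mod_cast fb
      have fc' : (m : ℝ) * c = k * c1 := by exact_mod_cast fc
      have gx : (m : ℝ) * g.1.x = k * g1.1.x := by
        rw [hx0, hx1]; linear_combination fa' + t * fc'
      have gy : (m : ℝ) * g.1.y = k * g1.1.y := by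
        rw [hy0, hy1]; linear_combination fb' + t ^ 2 * fc'
      by_cases hk0 : k = 0
      · rw [hk0] at gx gy
        simp only [Int.cast_zero, zero_mul, mul_eq_zero] at gx gy
        exact ⟨gx.resolve_left hmR.ne', gy.resolve_left hmR.ne'⟩
      · exfalso
        have hk1 : (1 : ℝ) ≤ |(k : ℝ)| := by exact_mod_cast Int.one_le_abs hk0
        have ax : (m : ℝ) * |g.1.x| = |(k : ℝ)| * |g1.1.x| := by
          rw [← abs_mul, ← gx, abs_mul, abs_of_pos hmR]
        have ay : (m : ℝ) * |g.1.y| = |(k : ℝ)| * |g1.1.y| := by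
          rw [← abs_mul, ← gy, abs_mul, abs_of_pos hmR]
        rw [lt_div_iff₀ (by positivity)] at hx hy
        nlinarith [abs_nonneg g1.1.x, abs_nonneg g1.1.y]
    · push Not at h2
      refine ⟨1, one_pos, fun g hg _ _ => ?_⟩
      have := h2 g hg
      have h3 := abs_nonneg g.1.x
      have h4 := abs_nonneg g.1.y
      exact ⟨abs_eq_zero.mp (by linarith), abs_eq_zero.mp (by linarith)⟩

theorem zm_GG (t : ℝ) (ht : ∀ a b c : ℤ, (a : ℝ) + b * t + c * t ^ 2 = 0 →
    a = 0 ∧ b = 0 ∧ c = 0) : Zm (GG t) := by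
  rintro N hN ⟨B, hB, hBc⟩ -
  have hB' : TopologicalSpace.IsTopologicalBasis {s : Set N | IsClopen s} :=
    TopologicalSpace.IsTopologicalBasis.of_isOpen_of_subset (fun u hu => hu.isOpen) hB hBc
  have : TotallySeparatedSpace N := totallySeparatedSpace_of_t0_of_basis_clopen hB'
  have hcl : IsClosed (cpart t N : Set ℝ) := hN.preimage (continuous_cen t)
  have hδ : ∃ δ > 0, ∀ s ∈ cpart t N, |s| < δ → s = 0 := by
    rcases AddSubgroup.dense_or_cyclic (cpart t N) with hd | ⟨c, hc⟩
    · exfalso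
      have hall : ∀ s, cen t s ∈ N := fun s => by
        have : s ∈ closure (cpart t N : Set ℝ) := hd s
        rwa [hcl.closure_eq] at this
      have hf : Continuous (fun s : ℝ => (⟨cen t s, hall s⟩ : N)) :=
        Continuous.subtype_mk (continuous_cen t) _
      have := TotallyDisconnectedSpace.eq_of_continuous _ hf 0 1
      have h2 := congrArg (fun n : N => n.1.1.z) this
      simp [cen] at h2
    · by_cases hc0 : c = 0
      · refine ⟨1, one_pos, fun s hs _ => ?_⟩
        rw [hc, hc0, AddSubgroup.mem_closure_singleton] at hs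
        obtain ⟨n, rfl⟩ := hs
        simp
      · refine ⟨|c|, abs_pos.mpr hc0, fun s hs hlt => ?_⟩
        rw [hc, AddSubgroup.mem_closure_singleton] at hs
        obtain ⟨n, rfl⟩ := hs
        by_contra hne
        have hn : n ≠ 0 := by rintro rfl; simp at hne
        have h1 : (1 : ℝ) ≤ |(n : ℝ)| := by exact_mod_cast Int.one_le_abs hn
        rw [zsmul_eq_mul, abs_mul] at hlt
        nlinarith [abs_pos.mpr hc0]
  obtain ⟨δ, hδ, hc⟩ := hδ
  obtain ⟨ε, hε, hsmall⟩ := small_plane t ht N δ hδ hc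
  apply discreteTopology_of_isOpen_singleton_one
  have hcont : Continuous (fun n : N => n.1.1) := continuous_subtype_val.comp continuous_subtype_val
  have hopen : IsOpen {n : N | |n.1.1.x| < ε ∧ |n.1.1.y| < ε ∧ |n.1.1.z| < δ} := by
    refine IsOpen.inter ?_ (IsOpen.inter ?_ ?_)
    · exact isOpen_lt (continuous_x.comp hcont).abs continuous_const
    · exact isOpen_lt (continuous_y.comp hcont).abs continuous_const
    · exact isOpen_lt (continuous_z.comp hcont).abs continuous_const
  convert hopen using 1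
  ext n
  simp only [mem_singleton_iff, mem_ofPred_eq]
  constructor
  · rintro rfl
    simp [hε, hδ]
  · rintro ⟨h1, h2, h3⟩
    obtain ⟨e1, e2⟩ := hsmall n.1 n.2 h1 h2
    have e : cen t n.1.1.z = n.1 :=
      Subtype.ext (ext' (by simp [cen, e1]) (by simp [cen, e2]) (by simp [cen]))
    have e3 : n.1.1.z = 0 := hc _ (by show cen t _ ∈ N; rw [e]; exact n.2) h3
    exact Subtype.ext (Subtype.ext (ext' (by simpa using e1) (by simpa using e2)
      (by simpa using e3)))

theorem not_closed_GG (t : ℝ) (ht : ∀ a b c : ℤ, (a : ℝ) + b * t + c * t ^ 2 = 0 →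
    a = 0 ∧ b = 0 ∧ c = 0) : ¬ IsClosed (GG t : Set Heis) := by
  intro hG
  let A : AddSubgroup (ℝ × ℝ) :=
    { carrier := {p | ∃ a b c : ℤ, p.1 = a + c * t ∧ p.2 = b + c * t ^ 2}
      add_mem' := by
        rintro g h ⟨a, b, c, h1, h2⟩ ⟨a', b', c', h3, h4⟩
        refine ⟨a + a', b + b', c + c', ?_, ?_⟩
        · simp [h1, h3]; ring
        · simp [h2, h4]; ring
      zero_mem' := ⟨0, 0, 0, by simp, by simp⟩
      neg_mem' := by
        rintro g ⟨a, b, c, h1, h2⟩
        refine ⟨-a, -b, -c, ?_, ?_⟩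
        · simp [h1]; ring
        · simp [h2]; ring }
  have hA : IsClosed (A : Set (ℝ × ℝ)) :=
    hG.preimage (continuous_mk (E := ℝ × ℝ) continuous_fst continuous_snd
      (continuous_const (y := (0 : ℝ))))
  have hcount : (A : Set (ℝ × ℝ)).Countable := by
    refine (Set.countable_range (fun v : ℤ × ℤ × ℤ =>
      (((v.1 : ℝ) + v.2.2 * t, (v.2.1 : ℝ) + v.2.2 * t ^ 2) : ℝ × ℝ))).mono ?_
    rintro p ⟨a, b, c, h1, h2⟩
    exact ⟨(a, b, c), Prod.ext h1.symm h2.symm⟩
  have : Countable A := hcount.to_subtype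
  have : CompleteSpace A := hA.completeSpace_coe
  obtain ⟨i, hi⟩ := nonempty_interior_of_iUnion_of_closed (X := A) (f := fun i : A => {i})
    (fun i => isClosed_singleton) (by ext p; simp)
  have hio : IsOpen ({i} : Set A) := by
    obtain ⟨j, hj⟩ := hi
    have : interior ({i} : Set A) = {i} := by
      apply Subset.antisymm interior_subset
      have hji : j = i := mem_singleton_iff.mp (interior_subset hj)
      rw [singleton_subset_iff]
      exact hji ▸ hj
    rw [← this]; exact isOpen_interior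
  have : DiscreteTopology A := by
    apply discreteTopology_of_isOpen_singleton_zero
    have := hio.preimage (continuous_const_add i)
    convert this using 1
    ext p; simp
  have hK : IsCompact ((A : Set (ℝ × ℝ)) ∩ (Icc (0 : ℝ) 1 ×ˢ Icc (0 : ℝ) 1)) :=
    (isCompact_Icc.prod isCompact_Icc).inter_left hA
  have hfin : ((A : Set (ℝ × ℝ)) ∩ (Icc (0 : ℝ) 1 ×ˢ Icc (0 : ℝ) 1)).Finite := by
    apply hK.finite
    have hd : IsDiscrete (A : Set (ℝ × ℝ)) := ⟨this⟩
    exact hd.mono inter_subset_left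
  apply hfin.not_infinite
  refine Set.infinite_of_injective_forall_mem
    (f := fun c : ℤ => ((Int.fract (c * t), Int.fract (c * t ^ 2)) : ℝ × ℝ)) ?_ ?_
  · intro c d hcd
    have h1 : Int.fract (c * t) = Int.fract (d * t) := congrArg Prod.fst hcd
    obtain ⟨n, hn⟩ := Int.fract_eq_fract.mp h1
    have := (ht (-n) (c - d) 0 (by push_cast; linear_combination hn)).2.1
    omega
  · intro c
    refine ⟨⟨-⌊c * t⌋, -⌊c * t ^ 2⌋, c, ?_, ?_⟩, ⟨Int.fract_nonneg _, (Int.fract_lt_one _).le⟩,
      ⟨Int.fract_nonneg _, (Int.fract_lt_one _).le⟩⟩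
    · simp only [Int.fract]; push_cast; ring
    · simp only [Int.fract]; push_cast; ring

theorem heis_main : ∃ G : Subgroup Heis, Zm G ∧ ¬ IsClosed (G : Set Heis) := by
  obtain ⟨t, ht⟩ := exists_indep
  exact ⟨GG t, zm_GG t ht, not_closed_GG t ht⟩

end

end Pool.Agent.H233Z
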