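import Mathlib

set_option autoImplicit false

/-!
# A criterion for a core-free permutable hyperplane of an elementary abelian normal subgroup
-/

namespace Pool.Agent.H233Z.Perm

open scoped Pointwise
open Multiplicative

/-- The elementary abelian group of order `7 ^ 7`. -/
abbrev E : Type := ZMod 7 → ZMod 7

/-- The diagonal of the second generator. -/
def dg : E := fun i => if i = 1 then 2 else if i = 2 then 4 else 1

theorem two_pow (j : ℕ) : (2 : ZMod 7) ^ (7 ^ j) = 2 := by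
  induction j with
  | zero => simp
  | succ j ih => rw [pow_succ, pow_mul, ih]; decide

theorem dg_one : dg 1 = 2 := by decide

theorem dg_cube : ∀ i, dg i ^ 3 = 1 := by decide

theorem dg_prod : ∏ i, dg i = 1 := by decide

theorem one_ne_two : (1 : ZMod 7) ≠ 2 := by decide

theorem exists_mul (a w : ZMod 7) (hw : w ≠ 0) : ∃ m : ℕ, a - m • w = 0 := by
  have : Fact (Nat.Prime 7) := ⟨by norm_num⟩
  refine ⟨(a / w).val, ?_⟩
  rw [nsmul_eq_mul, ZMod.natCast_zmod_val]
  field_simp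
  ring

/-- The data which give a counterexample. -/
structure Data (G : Type) [Group G] (ι : Multiplicative E →* G) (x₀ x₁ : G) : Prop where
  inj : Function.Injective ι
  dich : ∀ g : G, (∃ c : E, ∀ v : E, g * ι (ofAdd v) * g⁻¹ = ι (ofAdd (c * v))) ∨
    ((∀ v : E, ∃ v' : E, g * ι (ofAdd v) * g⁻¹ = ι (ofAdd v')) ∧
      ∃ w : E, w 0 ≠ 0 ∧ ι (ofAdd w) ∈ Subgroup.zpowers g)
  sh : ∀ v : E, x₀ * ι (ofAdd v) * x₀⁻¹ = ι (ofAdd fun i => v (i - 1))
  di : ∀ v : E, x₁ * ι (ofAdd v) * x₁⁻¹ = ι (ofAdd (dg * v))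

theorem Data.sub {G : Type} [Group G] {ι : Multiplicative E →* G} {x₀ x₁ : G}
    (D : Data G ι x₀ x₁) : ∃ (G' : Type) (_ : Group G') (ι' : Multiplicative E →* G') (y₀ y₁ : G'),
      Group.FG G' ∧ Data G' ι' y₀ y₁ := by
  let S : Set G := Set.range ι ∪ {x₀, x₁}
  have hS : S.Finite := (Set.finite_range ι).union (Set.toFinite _)
  let G' : Subgroup G := Subgroup.closure S
  have m1 : ∀ v, ι v ∈ G' := fun v => Subgroup.subset_closure (Or.inl ⟨v, rfl⟩)
  have m2 : x₀ ∈ G' := Subgroup.subset_closure (Or.inr (by simp))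
  have m3 : x₁ ∈ G' := Subgroup.subset_closure (Or.inr (by simp))
  refine ⟨G', inferInstance, ι.codRestrict G' m1, ⟨x₀, m2⟩, ⟨x₁, m3⟩, ?_, ?_, ?_, ?_, ?_⟩
  · exact (Group.fg_iff_subgroup_fg G').2 ((Subgroup.fg_iff G').2 ⟨S, rfl, hS⟩)
  · intro a b hab
    exact D.inj (congrArg Subtype.val hab)
  · intro g
    rcases D.dich g with ⟨c, hc⟩ | ⟨h1, w, hw, hw2⟩
    · exact Or.inl ⟨c, fun v => Subtype.ext (hc v)⟩
    · refine Or.inr ⟨fun v => ?_, w, hw, ?_⟩
      · obtain ⟨v', hv'⟩ := h1 v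
        exact ⟨v', Subtype.ext hv'⟩
      · obtain ⟨k, hk⟩ := Subgroup.mem_zpowers_iff.1 hw2
        exact Subgroup.mem_zpowers_iff.2 ⟨k, Subtype.ext (by simpa using hk)⟩
  · intro v
    exact Subtype.ext (D.sh v)
  · intro v
    exact Subtype.ext (D.di v)

/-- The hyperplane. -/
def hyp : Subgroup (Multiplicative E) where
  carrier := {v | toAdd v 0 = 0}
  one_mem' := rfl
  mul_mem' := by
    intro a b ha hb
    change toAdd a 0 + toAdd b 0 = 0
    rw [show toAdd a 0 = 0 from ha, show toAdd b 0 = 0 from hb, add_zero]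
  inv_mem' := by
    intro a ha
    change -toAdd a 0 = 0
    rw [show toAdd a 0 = 0 from ha, neg_zero]

theorem pow_seven (v : Multiplicative E) : v ^ 7 = 1 := by
  apply toAdd.injective
  funext i
  simp only [toAdd_pow, Pi.smul_apply, toAdd_one, Pi.zero_apply, nsmul_eq_mul]
  have : ((7 : ℕ) : ZMod 7) = 0 := ZMod.natCast_self 7
  rw [this, zero_mul]

theorem Data.false {G : Type} [Group G] {ι : Multiplicative E →* G} {x₀ x₁ : G}
    (D : Data G ι x₀ x₁) : ∃ H : Subgroup G, IsPGroup 7 H ∧ H.normalCore = ⊥ ∧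
      (∀ K : Subgroup G, (H : Set G) * (K : Set G) = (K : Set G) * (H : Set G)) ∧
      ∃ g : G, ∀ k : ℕ,
        g ^ (7 ^ k) ∉ Subgroup.centralizer (Subgroup.normalClosure (H : Set G) : Set G) := by
  have mem : ∀ v : E, ι (ofAdd v) ∈ hyp.map ι ↔ v 0 = 0 := by
    intro v
    rw [Subgroup.mem_map_iff_mem D.inj]
    rfl
  refine ⟨hyp.map ι, ?_, ?_, ?_, x₁, ?_⟩
  · rintro ⟨_, v, -, rfl⟩
    refine ⟨1, Subtype.ext ?_⟩
    simp only [pow_one, SubmonoidClass.coe_pow, OneMemClass.coe_one]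
    rw [← map_pow, pow_seven, map_one]
  · rw [eq_bot_iff]
    intro g hg
    obtain ⟨v, -, rfl⟩ := Subgroup.normalCore_le _ hg
    have key : ∀ (m : ℕ) (u : E), x₀ ^ m * ι (ofAdd u) * (x₀ ^ m)⁻¹ =
        ι (ofAdd fun i => u (i - m)) := by
      intro m
      induction m with
      | zero => intro u; simp
      | succ m ih =>
        intro u
        have : x₀ ^ (m + 1) * ι (ofAdd u) * (x₀ ^ (m + 1))⁻¹ =
            x₀ ^ m * (x₀ * ι (ofAdd u) * x₀⁻¹) * (x₀ ^ m)⁻¹ := by group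
        rw [this, D.sh, ih]
        congr 2
        funext i
        congr 1
        push_cast
        ring
    have h0 : toAdd v = 0 := by
      funext i
      have h1 := hg (x₀ ^ (-i).val)
      rw [← ofAdd_toAdd v, key, mem] at h1
      simpa using h1
    rw [Subgroup.mem_bot, ← ofAdd_toAdd v, h0, ofAdd_zero, map_one]
  · intro K
    have key : ∀ k ∈ K, ∀ h ∈ hyp.map ι, ∃ h' ∈ hyp.map ι, ∃ k' ∈ K,
        k * h * k⁻¹ = h' * k' ∧ k * h * k⁻¹ = k' * h' := by
      intro k hk h hh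
      obtain ⟨v, hv, rfl⟩ := hh
      rw [← ofAdd_toAdd v]
      rcases D.dich k with ⟨c, hc⟩ | ⟨h1, w, hw, hw2⟩
      · refine ⟨_, (mem (c * toAdd v)).2 ?_, 1, K.one_mem, by rw [hc, mul_one], by rw [hc, one_mul]⟩
        rw [Pi.mul_apply, show toAdd v 0 = 0 from hv, mul_zero]
      · obtain ⟨v', hv'⟩ := h1 (toAdd v)
        have hwK : ι (ofAdd w) ∈ K := (Subgroup.zpowers_le.2 hk) hw2
        obtain ⟨m, hm⟩ := exists_mul (v' 0) (w 0) hw
        refine ⟨_, (mem (v' - m • w)).2 hm, ι (ofAdd w) ^ m, K.pow_mem hwK m, ?_, ?_⟩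
        · rw [hv', ← map_pow, ← map_mul, ← ofAdd_nsmul, ← ofAdd_add, sub_add_cancel]
        · rw [hv', ← map_pow, ← map_mul, ← ofAdd_nsmul, ← ofAdd_add, add_sub_cancel]
    apply Set.Subset.antisymm
    · rintro _ ⟨h, hh, k, hk, rfl⟩
      obtain ⟨h', hh', k', hk', -, e⟩ := key k⁻¹ (K.inv_mem hk) h hh
      refine ⟨k * k', K.mul_mem hk hk', h', hh', ?_⟩
      change k * k' * h' = h * k
      rw [mul_assoc, ← e]; group
    · rintro _ ⟨k, hk, h, hh, rfl⟩
      obtain ⟨h', hh', k', hk', e, -⟩ := key k hk h hh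
      refine ⟨h', hh', k' * k, K.mul_mem hk' hk, ?_⟩
      change h' * (k' * k) = k * h
      rw [← mul_assoc, ← e]; group
  · intro k hk
    have key : ∀ (m : ℕ) (u : E), x₁ ^ m * ι (ofAdd u) * (x₁ ^ m)⁻¹ = ι (ofAdd (dg ^ m * u)) := by
      intro m
      induction m with
      | zero => intro u; simp
      | succ m ih =>
        intro u
        have : x₁ ^ (m + 1) * ι (ofAdd u) * (x₁ ^ (m + 1))⁻¹ =
            x₁ ^ m * (x₁ * ι (ofAdd u) * x₁⁻¹) * (x₁ ^ m)⁻¹ := by group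
        rw [this, D.di, ih, pow_succ, mul_assoc]
    let δ : E := fun i => if i = 1 then 1 else 0
    have hδ : ι (ofAdd δ) ∈ Subgroup.normalClosure ((hyp.map ι : Subgroup G) : Set G) :=
      Subgroup.subset_normalClosure ((mem δ).2 (if_neg (by decide)))
    have h1 := (Subgroup.mem_centralizer_iff.1 hk) _ hδ
    have h2 := key (7 ^ k) δ
    rw [← h1, mul_inv_cancel_right] at h2
    have h3 := congrFun (ofAdd.injective (D.inj h2)) 1
    rw [Pi.mul_apply, Pi.pow_apply, dg_one, two_pow, show δ 1 = 1 from if_pos rfl, mul_one] at h3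
    exact one_ne_two h3

end Pool.Agent.H233Z.Perm
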