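import Pool.Agent.H233Z.Perm1

set_option autoImplicit false

/-!
# Monomial action of the free group on the elementary abelian group
-/

namespace Pool.Agent.H233Z.Perm

open Multiplicative

/-- A monomial automorphism. -/
def mono (c : E) (s : ZMod 7) (hc : ∀ i, c i ^ 3 = 1) : MulAut (Multiplicative E) where
  toFun v := ofAdd fun i => c i * toAdd v (i - s)
  invFun v := ofAdd fun i => c (i + s) ^ 2 * toAdd v (i + s)
  left_inv v := by
    apply toAdd.injective
    funext i
    simp only [toAdd_ofAdd, add_sub_cancel_right]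
    rw [← mul_assoc, ← pow_succ, hc, one_mul]
  right_inv v := by
    apply toAdd.injective
    funext i
    simp only [toAdd_ofAdd, sub_add_cancel]
    rw [← mul_assoc, ← pow_succ', hc, one_mul]
  map_mul' u v := by
    apply toAdd.injective
    funext i
    simp only [toAdd_ofAdd, toAdd_mul, Pi.add_apply, mul_add]

/-- The action of the generators. -/
def gact (j : ℕ) : MulAut (Multiplicative E) :=
  if j = 0 then mono 1 1 (fun _ => by simp) else if j = 1 then mono dg 0 dg_cube else 1

/-- The action of the free group. -/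
def act : FreeGroup ℕ →* MulAut (Multiplicative E) := FreeGroup.lift gact

/-- The shift of an element of the free group. -/
def shf : FreeGroup ℕ →* Multiplicative (ZMod 7) :=
  FreeGroup.lift fun j => if j = 0 then ofAdd 1 else 1

/-- `g` acts on `E` through `ι` by a monomial map of determinant one with shift `s`. -/
def IsMono {G : Type} [Group G] (ι : Multiplicative E →* G) (g : G) (s : ZMod 7) : Prop :=
  ∃ c : E, (∀ i, c i ^ 3 = 1) ∧ ∏ i, c i = 1 ∧
    ∀ v : E, g * ι (ofAdd v) * g⁻¹ = ι (ofAdd fun i => c i * v (i - s))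

section mono

variable {G : Type} [Group G] {ι : Multiplicative E →* G}

theorem IsMono.one : IsMono ι 1 0 := ⟨1, fun _ => by simp, by simp, fun v => by simp⟩

theorem IsMono.mul {g h : G} {s t : ZMod 7} (hg : IsMono ι g s) (hh : IsMono ι h t) :
    IsMono ι (g * h) (s + t) := by
  obtain ⟨c, c1, c2, c3⟩ := hg
  obtain ⟨d, d1, d2, d3⟩ := hh
  refine ⟨fun i => c i * d (i - s), fun i => by rw [mul_pow, c1, d1, one_mul], ?_, fun v => ?_⟩
  · rw [Finset.prod_mul_distrib, c2, one_mul, ← d2]
    exact Equiv.prod_comp (Equiv.subRight s) d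
  · have : g * h * ι (ofAdd v) * (g * h)⁻¹ = g * (h * ι (ofAdd v) * h⁻¹) * g⁻¹ := by group
    rw [this, d3, c3]
    congr 2
    funext i
    rw [mul_assoc, sub_sub]

theorem IsMono.inv {g : G} {s : ZMod 7} (hg : IsMono ι g s) : IsMono ι g⁻¹ (-s) := by
  obtain ⟨c, c1, c2, c3⟩ := hg
  refine ⟨fun i => c (i + s) ^ 2, fun i => by rw [← pow_mul, mul_comm, pow_mul, c1, one_pow], ?_,
    fun v => ?_⟩
  · have : ∏ x, c (x + s) = ∏ x, c x := Equiv.prod_comp (Equiv.addRight s) c
    rw [Finset.prod_pow, this, c2, one_pow]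
  · have h := c3 (fun i => c (i + s) ^ 2 * v (i - -s))
    have e : (fun i => c i * (c (i - s + s) ^ 2 * v (i - s - -s))) = v := by
      funext i
      rw [sub_add_cancel, sub_neg_eq_add, sub_add_cancel, ← mul_assoc, ← pow_succ', c1, one_mul]
    rw [e] at h
    rw [← h]; group

theorem IsMono.of_mem (e : Multiplicative E) : IsMono ι (ι e) 0 := by
  refine ⟨1, fun _ => by simp, by simp, fun v => ?_⟩
  rw [← map_inv, ← map_mul, ← map_mul, mul_inv_cancel_comm]
  simp

theorem IsMono.norm {g : G} {s : ZMod 7} (hg : IsMono ι g s) (v : E) :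
    ∃ v' : E, g * ι (ofAdd v) * g⁻¹ = ι (ofAdd v') := by
  obtain ⟨c, -, -, c3⟩ := hg
  exact ⟨_, c3 v⟩

theorem IsMono.diag {g : G} (hg : IsMono ι g 0) :
    ∃ c : E, ∀ v : E, g * ι (ofAdd v) * g⁻¹ = ι (ofAdd (c * v)) := by
  obtain ⟨c, -, -, c3⟩ := hg
  refine ⟨c, fun v => ?_⟩
  rw [c3]
  simp only [sub_zero]
  rfl

theorem fixed (c : E) (s : ZMod 7) (hs : s ≠ 0) (c1 : ∀ i, c i ^ 3 = 1) (c2 : ∏ i, c i = 1) :
    ∃ w : E, ∀ i, w i ^ 3 = 1 ∧ w i = c i * w (i - s) := by
  have : Fact (Nat.Prime 7) := ⟨by norm_num⟩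
  set d : E := fun k => c (k * s) with hd
  have d1 : ∀ k, d k ^ 3 = 1 := fun k => c1 _
  have d2 : ∏ k, d k = 1 := by
    rw [← c2]
    exact Equiv.prod_comp (Equiv.mulRight₀ s hs) c
  have d3 : d 0 * d 1 * d 2 * d 3 * d 4 * d 5 * d 6 = 1 := by
    exact (Fin.prod_univ_seven (f := d)).symm.trans d2
  let u : E := ![1, d 1, d 1 * d 2, d 1 * d 2 * d 3, d 1 * d 2 * d 3 * d 4,
    d 1 * d 2 * d 3 * d 4 * d 5, d 1 * d 2 * d 3 * d 4 * d 5 * d 6]
  have hu : ∀ k : ZMod 7, u k ^ 3 = 1 ∧ u k = d k * u (k - 1) := by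
    intro k
    fin_cases k
    · exact ⟨one_pow 3, by
        change (1 : ZMod 7) = d 0 * (d 1 * d 2 * d 3 * d 4 * d 5 * d 6)
        exact d3.symm.trans (by ring)⟩
    · exact ⟨d1 1, by change d 1 = d 1 * 1; ring⟩
    · exact ⟨by change (d 1 * d 2) ^ 3 = 1; simp only [mul_pow, d1, mul_one],
        by change d 1 * d 2 = d 2 * d 1; ring⟩
    · exact ⟨by change (d 1 * d 2 * d 3) ^ 3 = 1; simp only [mul_pow, d1, mul_one],
        by change d 1 * d 2 * d 3 = d 3 * (d 1 * d 2); ring⟩
    · exact ⟨by change (d 1 * d 2 * d 3 * d 4) ^ 3 = 1; simp only [mul_pow, d1, mul_one],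
        by change d 1 * d 2 * d 3 * d 4 = d 4 * (d 1 * d 2 * d 3); ring⟩
    · exact ⟨by change (d 1 * d 2 * d 3 * d 4 * d 5) ^ 3 = 1; simp only [mul_pow, d1, mul_one],
        by change d 1 * d 2 * d 3 * d 4 * d 5 = d 5 * (d 1 * d 2 * d 3 * d 4); ring⟩
    · exact ⟨by
        change (d 1 * d 2 * d 3 * d 4 * d 5 * d 6) ^ 3 = 1; simp only [mul_pow, d1, mul_one],
        by change d 1 * d 2 * d 3 * d 4 * d 5 * d 6 = d 6 * (d 1 * d 2 * d 3 * d 4 * d 5); ring⟩
  refine ⟨fun i => u (i / s), fun i => ⟨(hu _).1, ?_⟩⟩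
  have e1 : (i - s) / s = i / s - 1 := by field_simp
  have e2 : d (i / s) = c i := by simp only [hd]; congr 1; field_simp
  simp only [e1]
  rw [← e2]
  exact (hu _).2

theorem IsMono.pow_diag {g : G} (hg : IsMono ι g 0) (v : Multiplicative E) :
    Commute (g ^ 3) (ι v) := by
  obtain ⟨c, c1, -, c3⟩ := hg
  have h : g ^ 3 * ι (ofAdd (toAdd v)) * (g ^ 3)⁻¹ =
      g * (g * (g * ι (ofAdd (toAdd v)) * g⁻¹) * g⁻¹) * g⁻¹ := by
    simp only [pow_succ, pow_zero, one_mul, mul_inv_rev, mul_assoc]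
  rw [c3, c3, c3] at h
  have e : (fun i => c i * (c (i - 0) * (c (i - 0 - 0) * toAdd v (i - 0 - 0 - 0)))) = toAdd v := by
    funext i
    simp only [sub_zero]
    have := c1 i
    calc c i * (c i * (c i * toAdd v i)) = c i ^ 3 * toAdd v i := by ring
      _ = toAdd v i := by rw [this, one_mul]
  rw [e, ofAdd_toAdd] at h
  exact mul_inv_eq_iff_eq_mul.1 h

theorem IsMono.fix {g : G} {s : ZMod 7} (hg : IsMono ι g s) (hs : s ≠ 0) :
    (∃ w : E, (∀ i, w i ^ 3 = 1) ∧ Commute (ι (ofAdd w)) g) ∧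
      ∀ v : Multiplicative E, Commute (g ^ 7) (ι v) := by
  obtain ⟨c, c1, c2, c3⟩ := hg
  obtain ⟨w, hw⟩ := fixed c s hs c1 c2
  constructor
  · refine ⟨w, fun i => (hw i).1, ?_⟩
    have h := c3 w
    rw [show (fun i => c i * w (i - s)) = w from funext fun i => (hw i).2.symm] at h
    exact (mul_inv_eq_iff_eq_mul.1 h).symm
  · have key : ∀ (m : ℕ) (u : E), g ^ m * ι (ofAdd (w * u)) * (g ^ m)⁻¹ =
        ι (ofAdd (w * fun i => u (i - m * s))) := by
      intro m
      induction m with
      | zero => intro u; simp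
      | succ m ih =>
        intro u
        have : g ^ (m + 1) * ι (ofAdd (w * u)) * (g ^ (m + 1))⁻¹ =
            g * (g ^ m * ι (ofAdd (w * u)) * (g ^ m)⁻¹) * g⁻¹ := by group
        rw [this, ih, c3]
        congr 2
        funext i
        simp only [Pi.mul_apply]
        rw [← mul_assoc, ← (hw i).2]
        congr 2
        push_cast
        ring
    intro v
    have h := key 7 (w ^ 2 * toAdd v)
    have e0 : ((7 : ℕ) : ZMod 7) = 0 := ZMod.natCast_self 7
    have e : w * (w ^ 2 * toAdd v) = toAdd v := by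
      funext i
      simp only [Pi.mul_apply, Pi.pow_apply]
      rw [← mul_assoc, ← pow_succ', (hw i).1, one_mul]
    simp only [e0, zero_mul, sub_zero] at h
    rw [e, ofAdd_toAdd] at h
    exact mul_inv_eq_iff_eq_mul.1 h

theorem IsMono.pow_comm {g : G} {s : ZMod 7} (hg : IsMono ι g s) (v : Multiplicative E) :
    Commute (g ^ 21) (ι v) := by
  by_cases hs : s = 0
  · subst hs
    have := (hg.pow_diag v).pow_left 7
    rwa [← pow_mul] at this
  · have := ((hg.fix hs).2 v).pow_left 3
    rwa [← pow_mul] at this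

theorem IsMono.pow_mul_mem {b : G} {s : ZMod 7} (hb : IsMono ι b s) (hs : s ≠ 0)
    (e : Multiplicative E) : (b * ι e) ^ 49 = b ^ 49 := by
  have key : ∀ m : ℕ, ∃ e' : Multiplicative E, (b * ι e) ^ m = ι e' * b ^ m := by
    intro m
    induction m with
    | zero => exact ⟨1, by simp⟩
    | succ m ih =>
      obtain ⟨e', he'⟩ := ih
      obtain ⟨v', hv'⟩ := hb.norm (toAdd (e * e'))
      refine ⟨ofAdd v', ?_⟩
      rw [pow_succ', he', ← hv', ofAdd_toAdd, map_mul]
      group
  obtain ⟨e', he'⟩ := key 7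
  have hc := ((hb.fix hs).2 e').symm
  rw [show 49 = 7 * 7 by norm_num, pow_mul, he', hc.mul_pow, ← map_pow, pow_seven, map_one, one_mul,
    ← pow_mul]

end mono

/-- The starting extension of the free group. -/
abbrev Gam : Type := Multiplicative E ⋊[act] FreeGroup ℕ

theorem isMono_inr (f : FreeGroup ℕ) :
    IsMono (SemidirectProduct.inl : Multiplicative E →* Gam) (SemidirectProduct.inr f)
      (toAdd (shf f)) := by
  induction f using FreeGroup.induction_on with
  | C1 => simpa using IsMono.one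
  | of j =>
    by_cases h0 : j = 0
    · subst h0
      refine ⟨1, fun _ => by simp, by simp, fun v => ?_⟩
      rw [← map_inv, ← SemidirectProduct.inl_aut]
      simp [act, gact, shf, mono]
    by_cases h1 : j = 1
    · subst h1
      refine ⟨dg, dg_cube, dg_prod, fun v => ?_⟩
      rw [← map_inv, ← SemidirectProduct.inl_aut]
      simp [act, gact, shf, mono]
    · refine ⟨1, fun _ => by simp, by simp, fun v => ?_⟩
      rw [← map_inv, ← SemidirectProduct.inl_aut]
      simp [act, gact, shf, h0, h1]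
  | inv_of j ih => rw [map_inv, map_inv, toAdd_inv]; exact ih.inv
  | mul x y hx hy => rw [map_mul, map_mul, toAdd_mul]; exact hx.mul hy

theorem isMono (g : Gam) : IsMono (SemidirectProduct.inl : Multiplicative E →* Gam) g
    (toAdd (shf (SemidirectProduct.rightHom g))) := by
  have := (IsMono.of_mem (ι := (SemidirectProduct.inl : Multiplicative E →* Gam)) g.left).mul
    (isMono_inr g.right)
  rwa [SemidirectProduct.inl_left_mul_inr_right, zero_add] at this

theorem sh_gen (v : E) : (SemidirectProduct.inr (FreeGroup.of 0) : Gam) *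
    SemidirectProduct.inl (ofAdd v) * (SemidirectProduct.inr (FreeGroup.of 0))⁻¹ =
    SemidirectProduct.inl (ofAdd fun i => v (i - 1)) := by
  rw [← map_inv, ← SemidirectProduct.inl_aut]
  simp [act, gact, mono]

theorem di_gen (v : E) : (SemidirectProduct.inr (FreeGroup.of 1) : Gam) *
    SemidirectProduct.inl (ofAdd v) * (SemidirectProduct.inr (FreeGroup.of 1))⁻¹ =
    SemidirectProduct.inl (ofAdd (dg * v)) := by
  rw [← map_inv, ← SemidirectProduct.inl_aut]
  simp [act, gact, mono]
  rfl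

end Pool.Agent.H233Z.Perm
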