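import Pool.Agent.H233Z.Perm2
import Pool.Agent.H233Z.TowerAll

set_option autoImplicit false

/-!
# The counterexample
-/

namespace Pool.Agent.H233Z.Perm

open Multiplicative SemidirectProduct

theorem exists_exp : ∃ n : ℕ, Odd n ∧ 10 ^ 32 ≤ n ∧ 21 ∣ n ∧ 49 ∣ n :=
  ⟨3 * 7 ^ 38, Odd.mul (by decide) (Odd.pow (by decide)), by norm_num, by norm_num, by norm_num⟩

theorem exists_data : ∃ (G : Type) (_ : Group G) (ι : Multiplicative E →* G) (x₀ x₁ : G),
    Data G ι x₀ x₁ := by
  have hF : Fact (Nat.Prime 7) := ⟨by norm_num⟩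
  obtain ⟨n, hn1, hn2, ⟨n₁, hn3⟩, ⟨n₂, hn4⟩⟩ := exists_exp
  let s : Gam →* Multiplicative (ZMod 7) := shf.comp rightHom
  have hm : ∀ g : Gam, IsMono (inl : Multiplicative E →* Gam) g (toAdd (s g)) := isMono
  have hker : ∀ e : Gam, rightHom e = 1 → ∃ v : Multiplicative E, inl v = e := by
    intro e he
    have : e ∈ (inl : Multiplicative E →* Gam).range := by
      rw [range_inl_eq_ker_rightHom]; exact he
    exact this
  have hw : ∀ g : Gam, ∃ w : E, Commute (inl (ofAdd w) : Gam) g ∧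
      (toAdd (s g) ≠ 0 → ∀ i, w i ^ 3 = 1) := by
    intro g
    by_cases h0 : toAdd (s g) = 0
    · exact ⟨0, by simp, fun h => absurd h0 h⟩
    · obtain ⟨w, hw1, hw2⟩ := ((hm g).fix h0).1
      exact ⟨w, hw2, fun _ => hw1⟩
  choose w hw1 hw2 using hw
  obtain ⟨K, hKn, hKE, -, hK⟩ := Tower.tower_all (Γ := Gam) n hn1 hn2
    rightHom rightHom_surjective (fun g => g ^ n * (inl (ofAdd (w g)))⁻¹)
    (fun g => by rw [map_mul, map_inv, rightHom_inl, inv_one, mul_one, map_pow])
    (fun g => ((Commute.refl g).pow_left n).mul_left (hw1 g).inv_left)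
    (fun g e he => by
      obtain ⟨v, rfl⟩ := hker e he
      refine Commute.mul_left ?_ ((Commute.all _ v).map inl).inv_left
      have := ((hm g).pow_comm v).pow_left n₁
      rwa [← pow_mul, ← hn3] at this)
  let π : Gam →* Gam ⧸ K := QuotientGroup.mk' K
  have hπ : ∀ g, π g = 1 ↔ g ∈ K := fun g => QuotientGroup.eq_one_iff g
  have hc : ∀ (g : Gam) (v v' : E), g * inl (ofAdd v) * g⁻¹ = inl (ofAdd v') →
      π g * (π.comp inl) (ofAdd v) * (π g)⁻¹ = (π.comp inl) (ofAdd v') := by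
    intro g v v' h
    simp only [MonoidHom.comp_apply]
    rw [← map_inv, ← map_mul, ← map_mul, h]
  refine ⟨Gam ⧸ K, inferInstance, π.comp inl, π (inr (FreeGroup.of 0)), π (inr (FreeGroup.of 1)),
    ?_, ?_, fun v => hc _ _ _ (sh_gen v), fun v => hc _ _ _ (di_gen v)⟩
  · rw [injective_iff_map_eq_one]
    intro v hv
    have := hKE _ ((hπ _).1 hv) (rightHom_inl v)
    exact inl_injective (this.trans (map_one _).symm)
  · intro g
    obtain ⟨γ, rfl⟩ := QuotientGroup.mk'_surjective K g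
    change (∃ c : E, ∀ v : E, π γ * _ * (π γ)⁻¹ = _) ∨
      ((∀ v : E, ∃ v' : E, π γ * _ * (π γ)⁻¹ = _) ∧ ∃ u : E, u 0 ≠ 0 ∧ _ ∈ Subgroup.zpowers (π γ))
    obtain ⟨k, hk, e, he, hγ⟩ := hK γ
    obtain ⟨v₀, rfl⟩ := hker e he
    have diag : ∀ γ' : Gam, toAdd (s γ') = 0 → ∃ c : E, ∀ v : E,
        π γ' * (π.comp inl) (ofAdd v) * (π γ')⁻¹ = (π.comp inl) (ofAdd (c * v)) := by
      intro γ' h0
      have := hm γ'
      rw [h0] at this
      obtain ⟨c, hc'⟩ := this.diag
      exact ⟨c, fun v => hc _ _ _ (hc' v)⟩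
    have hs0 : s (inl v₀) = 1 := by simp [s]
    rcases hγ with rfl | ⟨x, t, j, hx, rfl⟩
    · left
      rw [map_mul, (hπ k).2 hk, mul_one]
      exact diag _ (by rw [hs0, toAdd_one])
    · rw [map_mul _ _ k, (hπ k).2 hk, mul_one]
      set b : Gam := t * x ^ j * t⁻¹ with hb
      have hsb : toAdd (s b) = (j : ZMod 7) * toAdd (s x) := by
        have : s b = s x ^ j := by
          rw [hb, map_mul, map_mul, map_inv, mul_inv_cancel_comm, map_zpow]
        rw [this, toAdd_zpow, zsmul_eq_mul]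
      by_cases h0 : toAdd (s b) = 0
      · left
        exact diag _ (by rw [map_mul, hs0, mul_one, h0])
      · right
        refine ⟨fun v => ?_, ?_⟩
        · obtain ⟨v', hv'⟩ := (hm (b * inl v₀)).norm v
          exact ⟨v', hc _ _ _ hv'⟩
        · have hj : (j : ZMod 7) ≠ 0 := fun h => h0 (by rw [hsb, h, zero_mul])
          have hx0 : toAdd (s x) ≠ 0 := fun h => h0 (by rw [hsb, h, mul_zero])
          obtain ⟨c, c1, -, c3⟩ := hm t
          have cube : ∀ z : ZMod 7, z ^ 3 = 1 → z ≠ 0 := by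
            rintro z hz rfl
            simp at hz
          refine ⟨fun i => c i * (j • w x) (i - toAdd (s t)), ?_, ?_⟩
          · simp only [Pi.smul_apply, zsmul_eq_mul]
            exact mul_ne_zero (cube _ (c1 _)) (mul_ne_zero hj (cube _ (hw2 x hx0 _)))
          · refine Subgroup.mem_zpowers_iff.2 ⟨n, ?_⟩
            have e1 : (b * inl v₀) ^ n = b ^ n := by
              rw [hn4, pow_mul, (hm b).pow_mul_mem h0, ← pow_mul]
            have e2 : π x ^ n = π (inl (ofAdd (w x))) := by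
              have := (hπ _).2 hx
              rwa [map_mul, map_inv, map_pow, mul_inv_eq_one] at this
            rw [zpow_natCast, ← map_pow, e1, ← hc t _ _ (c3 (j • w x)), hb, conj_pow, map_mul,
              map_mul, map_inv, ← zpow_natCast, ← zpow_mul, mul_comm j (n : ℤ), zpow_mul,
              zpow_natCast, map_zpow, map_pow, e2, ofAdd_zsmul, map_zpow]
            rfl

end Pool.Agent.H233Z.Perm
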