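import Pool.Agent.H59Z.NA.Text

set_option autoImplicit false

/-!
# The tower of small cancellation quotients of an arbitrary extension of the free group

Given a group `Γ` over the free group and chosen lifts `h g` of the relators `(ρ₀ g) ^ n`, there is
a normal subgroup `K` of `Γ` meeting the kernel trivially such that, modulo `K` and the kernel, every
element is trivial or conjugate to a power of an element `a` with `h a ∈ K`.
-/

namespace Pool.Agent.H233Z.Tower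

open Pool.Agent.H59Z.NA

/-- The free group of countable rank. -/
abbrev Fr : Type := FreeGroup ℕ

/-- The subgroup of the free group generated by the `n`-th powers. -/
abbrev NF (n : ℕ) : Subgroup Fr := Subgroup.normalClosure (Set.range fun w : Fr => w ^ n)

variable {Γ : Type} [Group Γ]

/-- One stage of the tower. -/
structure Stage (n : ℕ) (ρ₀ : Γ →* Fr) (h : Γ → Γ) : Type 1 where
  G : Type
  Q : Type
  V : Type
  [gG : Group G]
  [gQ : Group Q]
  [act : MulAction Q V]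
  X : GM V
  ρ : G →* Q
  a : Γ →* G
  b : Fr →* Q
  pt : V
  good : Good Q V X 122 (10 ^ 9) (1 / (3 * 10 ^ 13)) n
  ρ_surj : Function.Surjective ρ
  ρ_ker : ∀ g, ρ g = 1 → ∃ e, ρ₀ e = 1 ∧ a e = g
  inj : ∀ e, ρ₀ e = 1 → a e = 1 → e = 1
  a_surj : Function.Surjective a
  sq : ∀ g : Γ, ρ (a g) = b (ρ₀ g)
  b_ker : ∀ w, b w = 1 → w ∈ NF n
  tors : ∀ (q : Q) (m : ℕ), 0 < m → q ^ m = 1 → ∃ γ : Γ, b (ρ₀ γ) = q ∧
    (γ = 1 ∨ ∃ (x t : Γ) (j : ℤ), a (h x) = 1 ∧ γ = t * x ^ j * t⁻¹)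

attribute [instance] Stage.gG Stage.gQ Stage.act

variable {n : ℕ} {ρ₀ : Γ →* Fr} {h : Γ → Γ}

/-- The displacement of the base point by a word. -/
def Stage.len (S : Stage n ρ₀ h) (w : Fr) : ℕ := S.X.d S.pt (S.b w • S.pt)

/-- The relation between two consecutive stages. -/
structure Next (S T : Stage n ρ₀ h) : Prop where
  a_mono : ∀ g, S.a g = 1 → T.a g = 1
  len : ∀ w, T.len w ≤ 1 ∨ T.len w < S.len w
  kill : ∀ w, S.len w ≤ 1 → T.b w ^ n = 1

theorem Stage.b_surj (S : Stage n ρ₀ h) : Function.Surjective S.b := by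
  intro q
  obtain ⟨g, rfl⟩ := S.ρ_surj q
  obtain ⟨x, rfl⟩ := S.a_surj g
  exact ⟨ρ₀ x, (S.sq x).symm⟩

theorem exists_stage (h2 : S_base) (n : ℕ) (ρ₀ : Γ →* Fr) (hρ : Function.Surjective ρ₀)
    (h : Γ → Γ) : Nonempty (Stage n ρ₀ h) := by
  obtain ⟨X, hX⟩ := h2
  refine ⟨{ G := Γ, Q := Fr, V := Fr, X := X, ρ := ρ₀, a := MonoidHom.id _,
            b := MonoidHom.id _, pt := 1, good := hX n _ (by norm_num), ρ_surj := hρ,
            ρ_ker := fun g hg => ⟨g, hg, rfl⟩, inj := fun e _ he => he,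
            a_surj := fun g => ⟨g, rfl⟩, sq := fun _ => rfl, b_ker := ?_, tors := ?_ }⟩
  · intro w hw
    have : w = 1 := hw
    rw [this]
    exact one_mem _
  · intro q m hm hq
    refine ⟨1, ?_, Or.inl rfl⟩
    rw [(pow_eq_one_iff_left hm.ne').1 hq, map_one, map_one]

theorem exists_next (s0 : S_tau) (s1 : S_lines) (s2 : S_elec) (s3 : S_wind) (s4 : S_quo)
    (s5 : S_step) (hn : Odd n) (hb : 10 ^ 32 ≤ n)
    (h1 : ∀ g, ρ₀ (h g) = ρ₀ g ^ n) (h2 : ∀ g, Commute (h g) g)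
    (h3 : ∀ g e, ρ₀ e = 1 → Commute (h g) e) (S : Stage n ρ₀ h) :
    ∃ T : Stage n ρ₀ h, Next S T := by
  choose o ho using S.a_surj
  obtain ⟨K, Q', V', _, _, X', β, φ, hKn, hg', hβ, hKE, hK, hbk, hφ, hd, ht, htor⟩ :=
    Text.gen_step s0 s1 s2 s3 s4 s5 n hn hb S.G S.Q S.V S.X S.ρ S.good S.ρ_surj
      (fun g => S.a (h (o g)))
      (fun g => by rw [S.sq, h1, map_pow, ← S.sq, ho])
      (fun g => by
        have := (h2 (o g)).map S.a
        rwa [ho] at this)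
      (fun g e he => by
        obtain ⟨e', he', rfl⟩ := S.ρ_ker e he
        exact (h3 (o g) e' he').map S.a)
  let ρ' : S.G ⧸ K →* Q' := QuotientGroup.lift K (β.comp S.ρ) fun k hk => (hK k).2 ⟨k, hk, rfl⟩
  have hρ' : ∀ g : S.G, ρ' (QuotientGroup.mk' K g) = β (S.ρ g) := fun g => rfl
  have hα : ∀ g : S.G, QuotientGroup.mk' K g = 1 ↔ g ∈ K := fun g => QuotientGroup.eq_one_iff g
  refine ⟨{ G := S.G ⧸ K, Q := Q', V := V', X := X', ρ := ρ',
            a := (QuotientGroup.mk' K).comp S.a, b := β.comp S.b,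
            pt := φ S.pt, good := hg', ρ_surj := ?_, ρ_ker := ?_, inj := ?_,
            a_surj := (QuotientGroup.mk'_surjective K).comp S.a_surj, sq := ?_, b_ker := ?_,
            tors := ?_ }, ?_, ?_, ?_⟩
  · intro q
    obtain ⟨q, rfl⟩ := hβ q
    obtain ⟨g, rfl⟩ := S.ρ_surj q
    exact ⟨QuotientGroup.mk' K g, rfl⟩
  · intro g hg
    obtain ⟨g, rfl⟩ := QuotientGroup.mk'_surjective K g
    rw [hρ', hK] at hg
    obtain ⟨k, hk, hk2⟩ := hg
    obtain ⟨e, he, he2⟩ := S.ρ_ker (k⁻¹ * g) (by simp [hk2])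
    refine ⟨e, he, ?_⟩
    rw [MonoidHom.comp_apply, he2, map_mul, map_inv, (hα k).2 hk, inv_one, one_mul]
  · intro e he he2
    rw [MonoidHom.comp_apply, hα] at he2
    exact S.inj e he (hKE _ he2 (by rw [S.sq, he, map_one]))
  · intro g
    simp only [MonoidHom.comp_apply, hρ', S.sq]
  · intro w hw
    have h := hbk (S.b w) hw
    have : ((NF n).map S.b).Normal := Subgroup.Normal.map inferInstance S.b S.b_surj
    have hle : Subgroup.normalClosure (Set.range fun q : S.Q => q ^ n) ≤ (NF n).map S.b := by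
      apply Subgroup.normalClosure_le_normal
      rintro _ ⟨q, rfl⟩
      obtain ⟨v, rfl⟩ := S.b_surj q
      exact ⟨v ^ n, Subgroup.subset_normalClosure ⟨v, rfl⟩, map_pow _ _ _⟩
    obtain ⟨v, hv, hvw⟩ := hle h
    have h2 : w * v⁻¹ ∈ NF n := S.b_ker _ (by rw [map_mul, map_inv, hvw, mul_inv_cancel])
    have h3 := mul_mem h2 hv
    simpa using h3
  · intro q m hm hq
    obtain ⟨g, hg1, hg2⟩ := htor q m hm hq
    rcases hg2 with h' | ⟨x, t, j, hx, rfl, -⟩
    · obtain ⟨γ, hγ1, hγ2⟩ := S.tors _ n hn.pos h'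
      refine ⟨γ, by rw [MonoidHom.comp_apply, hγ1, hg1], ?_⟩
      rcases hγ2 with rfl | ⟨x, t, j, hx, rfl⟩
      · exact Or.inl rfl
      · exact Or.inr ⟨x, t, j, by rw [MonoidHom.comp_apply, hx, map_one], rfl⟩
    · refine ⟨o t * o x ^ j * (o t)⁻¹, ?_, Or.inr ⟨o x, o t, j, (hα _).2 hx, rfl⟩⟩
      rw [MonoidHom.comp_apply, ← S.sq, ← hg1]
      simp only [map_mul, map_inv, map_zpow, ho]
  · intro g hg
    change QuotientGroup.mk' K (S.a g) = 1
    rw [hg, map_one]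
  · intro w
    have := hd S.pt (S.b w • S.pt)
    rw [hφ] at this
    exact this
  · intro w hw
    change β (S.b w) ^ n = 1
    apply ht
    have h := (s0 S.Q S.V S.X S.good.inv).1 (S.b w) S.pt 1
    rw [pow_one, Nat.cast_one, mul_one] at h
    refine h.trans ?_
    exact_mod_cast hw

theorem tower (s0 : S_tau) (sb : S_base) (s1 : S_lines) (s2 : S_elec) (s3 : S_wind) (s4 : S_quo)
    (s5 : S_step) (n : ℕ) (hn : Odd n) (hb : 10 ^ 32 ≤ n) (ρ₀ : Γ →* Fr)
    (hρ : Function.Surjective ρ₀) (h : Γ → Γ)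
    (h1 : ∀ g, ρ₀ (h g) = ρ₀ g ^ n) (h2 : ∀ g, Commute (h g) g)
    (h3 : ∀ g e, ρ₀ e = 1 → Commute (h g) e) :
    ∃ K : Subgroup Γ, K.Normal ∧ (∀ k ∈ K, ρ₀ k = 1 → k = 1) ∧ (∀ k ∈ K, ρ₀ k ∈ NF n) ∧
      ∀ γ : Γ, ∃ k ∈ K, ∃ e : Γ, ρ₀ e = 1 ∧
        (γ = e * k ∨ ∃ (x t : Γ) (j : ℤ), h x ∈ K ∧ γ = t * x ^ j * t⁻¹ * e * k) := by
  obtain ⟨S0⟩ := exists_stage sb n ρ₀ hρ h
  choose nx hnx using exists_next s0 s1 s2 s3 s4 s5 hn hb h1 h2 h3
  let S : ℕ → Stage n ρ₀ h := fun k => nx^[k] S0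
  have hS : ∀ k, Next (S k) (S (k + 1)) := fun k => by
    simp only [S]
    rw [Function.iterate_succ_apply']
    exact hnx _
  have amono : ∀ k l, k ≤ l → ∀ g, (S k).a g = 1 → (S l).a g = 1 := by
    intro k l hkl g hg
    induction l, hkl using Nat.le_induction with
    | base => exact hg
    | succ l _ ih => exact (hS l).a_mono g ih
  let K : Subgroup Γ :=
    { carrier := {g | ∃ k, (S k).a g = 1}
      one_mem' := ⟨0, map_one _⟩
      mul_mem' := by
        rintro g h ⟨k, hk⟩ ⟨l, hl⟩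
        refine ⟨max k l, ?_⟩
        rw [map_mul, amono k _ (le_max_left _ _) g hk, amono l _ (le_max_right _ _) h hl, mul_one]
      inv_mem' := by
        rintro g ⟨k, hk⟩
        exact ⟨k, by rw [map_inv, hk, inv_one]⟩ }
  have short : ∀ w : Fr, ∃ k, (S k).len w ≤ 1 := by
    intro w
    by_contra hcon
    push Not at hcon
    have dec : ∀ k, (S k).len w + k ≤ (S 0).len w := by
      intro k
      induction k with
      | zero => simp
      | succ k ih =>
        rcases (hS k).len w with h | h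
        · exact absurd h (not_le.2 (hcon _))
        · omega
    have := dec ((S 0).len w + 1)
    omega
  refine ⟨K, ⟨?_⟩, ?_, ?_, ?_⟩
  · rintro g ⟨k, hk⟩ h
    exact ⟨k, by rw [map_mul, map_mul, hk, mul_one, map_inv, mul_inv_cancel]⟩
  · rintro g ⟨k, hk⟩ hg
    exact (S k).inj g hg hk
  · rintro g ⟨k, hk⟩
    apply (S k).b_ker
    rw [← (S k).sq, hk, map_one]
  · intro γ
    obtain ⟨k, hk⟩ := short (ρ₀ γ)
    obtain ⟨γ', hγ1, hγ2⟩ := (S (k + 1)).tors _ n hn.pos ((hS k).kill _ hk)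
    obtain ⟨e, he, he2⟩ := (S (k + 1)).ρ_ker ((S (k + 1)).a (γ'⁻¹ * γ))
      (by rw [(S (k + 1)).sq, map_mul, map_mul, map_inv, map_inv, hγ1, inv_mul_cancel])
    refine ⟨e⁻¹ * (γ'⁻¹ * γ), ⟨k + 1, by rw [map_mul, map_inv, he2, inv_mul_cancel]⟩, e, he, ?_⟩
    rcases hγ2 with rfl | ⟨x, t, j, hx, rfl⟩
    · left; group
    · right
      exact ⟨x, t, j, ⟨k + 1, hx⟩, by group⟩

end Pool.Agent.H233Z.Tower
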